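import Pool.Agent.H97.HV.Targets4
import Pool.Agent.H60.WM.COL

/-!
# Row WPI: the collapse of the structure of the terms, for the models HOD(V_ (min γ ξ))
-/

set_option autoImplicit false

open Ordinal Cardinal Order Set
open scoped ZFSet

universe u

namespace HD.HW.H52

open _root_.HD HD.PRK HD.HV Pool.Agent.H54.WM

/-- what is valid in the model is true for the terms -/
theorem valid (hLOS : HD.HW.T_LOS.{u}) (hTR : HD.HW.T_TR.{u}) {γ ξ κ : Ordinal.{u}}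
    {j : ZFSet.{u} → ZFSet.{u}} (h : HD.HW.Bas γ ξ κ j) {φ : Fml}
    (hφ : ∀ v : ℕ → ZFSet.{u}, (∀ n, NV (min γ ξ) (v n)) → Sat (NV (min γ ξ)) φ v)
    (t : ℕ → HD.HW.Tm γ ξ κ) : SatT (HD.HW.ME j) (HD.HW.MQ j) φ t := by
  have hc : tup ((List.range (bd φ)).map fun n => (t n).b) ∈ HW γ κ :=
    HD.HW.tup_mem_HW h.gκ h.lκ (by
      intro x hx
      obtain ⟨n, -, rfl⟩ := List.mem_map.1 hx
      exact (t n).hb)
  refine (hLOS γ ξ κ j h φ t (bd φ) _ le_rfl hc ?_).2 ?_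
  · intro n hn
    rw [pr_tup]
    unfold sv
    rw [List.getD_eq_getElem _ _ (by simpa using hn)]
    simp
  · have e : HD.HW.TS γ ξ φ (fun n => (t n).f) = HW γ ξ := by
      ext w
      rw [HD.HW.mem_TS]
      exact ⟨fun h => h.1, fun hw => ⟨hw, hφ _ fun n =>
        nv_ap h.gξ (t n).hf (mem_HW.1 (pr_mem_HW h.gξ h.lξ n hw)).2⟩⟩
    rw [e, (hTR γ ξ κ j h).2.1]
    exact hc

/-- a sequence which begins with four given terms -/
def q4 {α : Type (u + 1)} (a b c d : α) : ℕ → α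
  | 0 => a
  | 1 => b
  | 2 => c
  | _ => d

theorem X (hLOS : HD.HW.T_LOS.{u}) (hTR : HD.HW.T_TR.{u}) (hWFT : HD.HW.T_WFT.{u})
    (hCOL : T_COL.{u}) (hSL : HD.HW.T_SL.{u}) : HD.HW.T_PI.{u} := by
  intro γ ξ κ j h hCC
  have hval : ∀ φ : Fml, (∀ v : ℕ → ZFSet.{u}, (∀ n, NV (min γ ξ) (v n)) →
      Sat (NV (min γ ξ)) φ v) →
      ∀ t : ℕ → HD.HW.Tm γ ξ κ, SatT (HD.HW.ME j) (HD.HW.MQ j) φ t :=
    fun φ hφ t => valid hLOS hTR h hφ t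
  have hrefl : ∀ s : HD.HW.Tm γ ξ κ, HD.HW.MQ j s s := fun s =>
    hval (.eq 0 0) (fun v _ => rfl) (q4 s s s s)
  have hsymm : ∀ s t : HD.HW.Tm γ ξ κ, HD.HW.MQ j s t → HD.HW.MQ j t s := by
    intro s t hst
    have h1 := hval (.neg (.and (.eq 0 1) (.neg (.eq 1 0)))) (fun v _ => by
      show ¬ (v 0 = v 1 ∧ ¬ v 1 = v 0)
      exact fun h => h.2 h.1.symm) (q4 s t t t)
    by_contra hn
    exact h1 ⟨hst, hn⟩
  have htrans : ∀ r s t : HD.HW.Tm γ ξ κ, HD.HW.MQ j r s → HD.HW.MQ j s t →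
      HD.HW.MQ j r t := by
    intro r s t h2 h3
    have h1 := hval (.neg (.and (.and (.eq 0 1) (.eq 1 2)) (.neg (.eq 0 2)))) (fun v _ => by
      show ¬ ((v 0 = v 1 ∧ v 1 = v 2) ∧ ¬ v 0 = v 2)
      exact fun h => h.2 (h.1.1.trans h.1.2)) (q4 r s t t)
    by_contra hn
    exact h1 ⟨⟨h2, h3⟩, hn⟩
  have hcong : ∀ s s' t t' : HD.HW.Tm γ ξ κ, HD.HW.MQ j s s' → HD.HW.MQ j t t' →
      HD.HW.ME j s t → HD.HW.ME j s' t' := by
    intro s s' t t' h2 h3 h4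
    have h1 := hval (.neg (.and (.and (.and (.eq 0 1) (.eq 2 3)) (.mem 0 2)) (.neg (.mem 1 3))))
      (fun v _ => by
      show ¬ (((v 0 = v 1 ∧ v 2 = v 3) ∧ v 0 ∈ v 2) ∧ ¬ v 1 ∈ v 3)
      rintro ⟨⟨⟨h5, h6⟩, h7⟩, h8⟩
      rw [h5, h6] at h7
      exact h8 h7) (q4 s s' t t')
    by_contra hn
    exact h1 ⟨⟨⟨h2, h3⟩, h4⟩, hn⟩
  have hext : ∀ s t : HD.HW.Tm γ ξ κ, (∀ r, HD.HW.ME j r s ↔ HD.HW.ME j r t) →
      HD.HW.MQ j s t := by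
    intro s t h2
    have h1 := hval (.neg (.and (.neg (.ex (.and (.mem 0 1) (.neg (.mem 0 2)))))
      (.and (.neg (.ex (.and (.mem 0 2) (.neg (.mem 0 1))))) (.neg (.eq 0 1))))) (fun v hv => by
      rintro ⟨h3, h4, h5⟩
      apply h5
      show v 0 = v 1
      ext z
      constructor
      · intro hz
        by_contra hn
        exact h3 ⟨z, nv_tra _ (hv 0) z hz, hz, hn⟩
      · intro hz
        by_contra hn
        exact h4 ⟨z, nv_tra _ (hv 1) z hz, hz, hn⟩) (q4 s t t t)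
    by_contra hn
    refine h1 ⟨?_, ?_, hn⟩
    · rintro ⟨r, h3, h4⟩
      exact h4 ((h2 r).1 h3)
    · rintro ⟨r, h3, h4⟩
      exact h4 ((h2 r).2 h3)
  obtain ⟨π, h1, h2, h3⟩ := hCOL (HD.HW.Tm γ ξ κ) (HD.HW.ME j) (HD.HW.MQ j)
    (hWFT γ ξ κ j h hCC) hrefl hsymm htrans hcong hext (hSL γ ξ κ j h)
  exact ⟨π, h1, h2, fun t x hx => by
    obtain ⟨s, -, hs⟩ := h3 t x hx
    exact ⟨s, hs⟩⟩

theorem pf_PI (h1 : HD.HW.T_LOS.{u}) (h2 : HD.HW.T_TR.{u}) (h3 : HD.HW.T_WFT.{u})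
    (h4 : HD.HW.T_SL.{u}) : HD.HW.T_PI.{u} :=
  X h1 h2 h3 Pool.Agent.H60.WM.COL.X h4

end HD.HW.H52
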